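import Pool.Agent.L0h29.AL.ArtDefs2

/-! Module CMB of project AL2. -/

set_option autoImplicit false
set_option linter.unusedSectionVars false

namespace Pool.Agent.L0h19.AL

open Pool.Agent.K7.H20.AW Pool.Agent.L0h29.AL

universe u

/-! ### products of conjugates -/

section cj
variable {G H : Type*} [Group G] [Group H]

theorem cj_nil (r : G) : cj r [] = 1 := rfl

theorem cj_cons (r : G) (p : G × Bool) (c : List (G × Bool)) :
    cj r (p :: c) = p.1 * (if p.2 then r else r⁻¹) * p.1⁻¹ * cj r c := by
  simp [cj]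

theorem cj_append (r : G) (c d : List (G × Bool)) : cj r (c ++ d) = cj r c * cj r d := by
  simp [cj]

theorem cj_map (φ : G →* H) (r : G) (c : List (G × Bool)) :
    φ (cj r c) = cj (φ r) (c.map fun p => (φ p.1, p.2)) := by
  induction c with
  | nil => simp [cj_nil]
  | cons p c ih =>
    rw [cj_cons, map_mul, ih, List.map_cons, cj_cons]
    by_cases h : p.2 <;> simp [h]

theorem cj_conj (u r : G) (c : List (G × Bool)) :
    u * cj r c * u⁻¹ = cj r (c.map fun p => (u * p.1, p.2)) := by
  induction c with
  | nil => simp [cj_nil]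
  | cons p c ih =>
    rw [cj_cons, List.map_cons, cj_cons, ← ih]
    simp only [mul_inv_rev]
    group

end cj

/-! ### letters -/

section letters
variable {B : Type*} {M : CoxeterMatrix B}

theorem lval_nil : lval M [] = 1 := rfl

theorem lval_cons (p : B × Bool) (w : List (B × Bool)) :
    lval M (p :: w) = (if p.2 then g M p.1 else (g M p.1)⁻¹) * lval M w := by
  simp [lval]

theorem lval_append (v w : List (B × Bool)) : lval M (v ++ w) = lval M v * lval M w := by
  simp [lval]

theorem lval_val (w : List (B × Bool)) :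
    lval M w = val M (w.map fun p => (p.1, if p.2 then 1 else -1)) := by
  induction w with
  | nil => rfl
  | cons p w ih =>
    rw [lval_cons, List.map_cons, val_cons, ih]
    by_cases h : p.2 <;> simp [h]

theorem lval_Wl (w : List (B × Bool)) : Wl (Set.range (g M)) (lval M w) w.length := by
  refine ⟨w.map fun p => if p.2 then g M p.1 else (g M p.1)⁻¹, by simp, ?_, rfl⟩
  intro a ha
  obtain ⟨p, _, rfl⟩ := List.mem_map.1 ha
  by_cases h : p.2
  · rw [if_pos h]
    exact Or.inl ⟨_, rfl⟩
  · rw [if_neg h, inv_inv]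
    exact Or.inr ⟨_, rfl⟩

theorem Wl_mono {G : Type*} [Group G] {X : Set G} {x : G} {n n' : ℕ} (h : Wl X x n) (hn : n ≤ n') :
    Wl X x n' := by
  obtain ⟨l, h1, h2, h3⟩ := h
  exact ⟨l, h1.trans hn, h2, h3⟩

theorem Wl_lval {x : Art M} {n : ℕ} (h : Wl (Set.range (g M)) x n) :
    ∃ w : List (B × Bool), w.length ≤ n ∧ lval M w = x := by
  obtain ⟨l, h1, h2, h3⟩ := h
  have key : ∀ l : List (Art M), (∀ a ∈ l, a ∈ Set.range (g M) ∨ a⁻¹ ∈ Set.range (g M)) →
      ∃ w : List (B × Bool), w.length = l.length ∧ lval M w = l.prod := by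
    intro l
    induction l with
    | nil => exact fun _ => ⟨[], rfl, rfl⟩
    | cons a l ih =>
      intro h
      obtain ⟨w, hw1, hw2⟩ := ih fun b hb => h b (List.mem_cons_of_mem _ hb)
      rcases h a List.mem_cons_self with ⟨b, hb⟩ | ⟨b, hb⟩
      · refine ⟨(b, true) :: w, by simp [hw1], ?_⟩
        rw [lval_cons, hw2, List.prod_cons, if_pos rfl, hb]
      · refine ⟨(b, false) :: w, by simp [hw1], ?_⟩
        rw [lval_cons, hw2, List.prod_cons, if_neg (by simp), hb, inv_inv]
  obtain ⟨w, hw1, hw2⟩ := key l h2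
  exact ⟨w, hw1.trans_le h1, hw2.trans h3⟩

end letters

/-! ### syllables -/

section syll

/-- the letters of a word in syllables -/
def slw (l : List (Bool × ℤ)) : List (Bool × Bool) :=
  l.flatMap fun a => List.replicate a.2.natAbs (a.1, decide (0 ≤ a.2))

theorem slw_length (l : List (Bool × ℤ)) : (slw l).length = lt l := by
  induction l with
  | nil => rfl
  | cons a l ih =>
    unfold slw lt at *
    rw [List.flatMap_cons, List.length_append, ih, List.map_cons, List.sum_cons]
    simp

theorem mk_replicate (b e : Bool) (n : ℕ) : FreeGroup.mk (List.replicate n (b, e)) =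
    (if e then FreeGroup.of b else (FreeGroup.of b)⁻¹) ^ n := by
  induction n with
  | zero => rfl
  | succ n ih =>
    rw [List.replicate_succ, ← List.singleton_append, ← FreeGroup.mul_mk, ih, pow_succ']
    cases e
    · simp [FreeGroup.of, FreeGroup.inv_mk, FreeGroup.invRev]
    · simp [FreeGroup.of]

theorem mk_slw (l : List (Bool × ℤ)) : FreeGroup.mk (slw l) = ev FreeGroup.of l := by
  induction l with
  | nil => rfl
  | cons a l ih =>
    have e : slw (a :: l) = List.replicate a.2.natAbs (a.1, decide (0 ≤ a.2)) ++ slw l := by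
      unfold slw
      rw [List.flatMap_cons]
    rw [e, ← FreeGroup.mul_mk, ih, mk_replicate]
    unfold ev
    rw [List.map_cons, List.prod_cons]
    congr 1
    rcases le_or_gt 0 a.2 with h | h
    · rw [if_pos (by simpa using h), ← zpow_natCast, Int.natAbs_of_nonneg h]
    · rw [if_neg (by simpa using h), ← zpow_natCast, inv_zpow', Int.ofNat_natAbs_of_nonpos h.le,
        neg_neg]

theorem syl_push (τ : Bool) (k : ℤ) (hk : k ≠ 0) (l : List (Bool × ℤ)) (hl : Syl l) :
    ∃ l', Syl l' ∧ ev FreeGroup.of l' = FreeGroup.of τ ^ k * ev FreeGroup.of l := by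
  cases l with
  | nil =>
    refine ⟨[(τ, k)], ⟨List.isChain_singleton _, ?_⟩, ?_⟩
    · intro a ha
      rw [List.mem_singleton.1 ha]
      exact hk
    · simp [ev]
  | cons a l =>
    have htail : Syl l := ⟨hl.1.tail, fun b hb => hl.2 b (List.mem_cons_of_mem _ hb)⟩
    by_cases h : a.1 = τ
    · by_cases h0 : k + a.2 = 0
      · refine ⟨l, htail, ?_⟩
        unfold ev
        rw [List.map_cons, List.prod_cons, h, ← mul_assoc, ← zpow_add, h0, zpow_zero, one_mul]
      · refine ⟨(τ, k + a.2) :: l, ⟨?_, ?_⟩, ?_⟩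
        · cases l with
          | nil => exact List.isChain_singleton _
          | cons b l =>
            have h1 := List.isChain_cons_cons.1 hl.1
            refine List.isChain_cons_cons.2 ⟨?_, h1.2⟩
            rw [← h]
            exact h1.1
        · intro b hb
          rcases List.mem_cons.1 hb with rfl | hb
          · exact h0
          · exact htail.2 b hb
        · unfold ev
          rw [List.map_cons, List.prod_cons, List.map_cons, List.prod_cons, h, ← mul_assoc,
            ← zpow_add]
    · refine ⟨(τ, k) :: a :: l, ⟨?_, ?_⟩, ?_⟩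
      · exact List.isChain_cons_cons.2 ⟨fun e => h e.symm, hl.1⟩
      · intro b hb
        rcases List.mem_cons.1 hb with rfl | hb
        · exact hk
        · exact hl.2 b hb
      · unfold ev
        rw [List.map_cons, List.prod_cons]

theorem exists_syl (y : FreeGroup Bool) : ∃ l, Syl l ∧ ev FreeGroup.of l = y := by
  obtain ⟨w, rfl⟩ : ∃ w, FreeGroup.mk w = y := ⟨y.toWord, FreeGroup.mk_toWord⟩
  induction w with
  | nil => exact ⟨[], ⟨List.isChain_nil, by simp⟩, rfl⟩
  | cons p w ih =>
    obtain ⟨l, hl, he⟩ := ih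
    obtain ⟨b, e⟩ := p
    obtain ⟨l', hl', he'⟩ := syl_push b (if e then 1 else -1) (by split_ifs <;> norm_num) l hl
    refine ⟨l', hl', ?_⟩
    rw [he', he, ← List.singleton_append, ← FreeGroup.mul_mk]
    congr 1
    cases e
    · simp [FreeGroup.of, FreeGroup.inv_mk, FreeGroup.invRev]
    · simp [FreeGroup.of]

theorem lift_ev {G : Type*} [Group G] (x : Bool → G) (l : List (Bool × ℤ)) :
    FreeGroup.lift x (ev FreeGroup.of l) = ev x l := by
  unfold ev
  rw [map_list_prod, List.map_map]
  congr 1
  refine List.map_congr_left fun a _ => ?_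
  simp

theorem map_altProd {G H : Type*} [Group G] [Group H] (φ : G →* H) (m : ℕ) : ∀ a b : G,
    φ (altProd m a b) = altProd m (φ a) (φ b) := by
  induction m with
  | zero => intro a b; exact map_one φ
  | succ m ih => intro a b; rw [altProd, altProd, map_mul, ih]

end syll

/-! ### bounds -/

theorem bd_mono {m m' n n' : ℕ} (hm : m ≤ m') (hn : n ≤ n') : bd m n ≤ bd m' n' := by
  unfold bd
  gcongr

theorem bi_mono {m m' : ℕ} (hm : m ≤ m') (n : ℕ) : bi m n ≤ bi m' n := by
  unfold bi
  gcongr

/-- a product of products of conjugates -/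
theorem collect {B : Type*} (M' : CoxeterMatrix B) (r : Art M') (a b : ℕ) (L : List (Art M'))
    (h : ∀ x ∈ L, ∃ c : List (List (B × Bool) × Bool), c.length ≤ a ∧ (∀ q ∈ c, q.1.length ≤ b) ∧
      x = cj r (c.map fun q => (lval M' q.1, q.2))) :
    ∃ c : List (List (B × Bool) × Bool), c.length ≤ L.length * a ∧ (∀ q ∈ c, q.1.length ≤ b) ∧
      L.prod = cj r (c.map fun q => (lval M' q.1, q.2)) := by
  induction L with
  | nil => exact ⟨[], by simp, by simp, rfl⟩
  | cons x L ih =>
    obtain ⟨c, h1, h2, h3⟩ := ih fun y hy => h y (List.mem_cons_of_mem _ hy)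
    obtain ⟨d, h4, h5, h6⟩ := h x List.mem_cons_self
    refine ⟨d ++ c, ?_, ?_, ?_⟩
    · rw [List.length_append, List.length_cons, add_mul, one_mul]
      omega
    · intro q hq
      rcases List.mem_append.1 hq with hq | hq
      · exact h5 q hq
      · exact h2 q hq
    · rw [List.prod_cons, h3, h6, List.map_append, cj_append]

theorem cmb (hRET : S_RET.{u}) (hITR : S_ITR.{u}) (hKER : S_KER.{u}) (hDAR : S_DAR)
    (hFRE : S_FRE.{u}) : S_CMB.{u} := by
  intro B _ _ M s t hst hM w N hw hMN hval
  have h0 : er M s t s t = 0 := by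
    change (if s = t then 1 else if (s = s ∧ t = t) ∨ (s = t ∧ t = s) then 0 else M s t) = 0
    rw [if_neg hst, if_pos (Or.inl ⟨rfl, rfl⟩)]
  obtain ⟨S, hA, hC, hx, hK, hm, hX⟩ := hRET B (er M s t) s t hst h0 (M s t) hM
  have hg : lval (er M s t) w ∈ Subgroup.normalClosure (S.K : Set (Art (er M s t))) := by
    rw [hK]
    have h1 := hKER B M s t hst (w.map fun p => (p.1, if p.2 then 1 else -1)) (by
      rw [← lval_val]
      exact hval)
    rw [← lval_val] at h1
    exact h1
  obtain ⟨L, hL1, hL2, hL3⟩ := hITR _ S _ hg N (by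
    rw [hX]
    exact Wl_mono (lval_Wl w) hw)
  have hinj : Function.Injective (FreeGroup.lift (xx (er M s t) s t)) := by
    rw [injective_iff_map_eq_one]
    intro y hy
    obtain ⟨l, hl, rfl⟩ := exists_syl y
    rw [lift_ev, ← hx] at hy
    have h2 := (hFRE _ S.toDat).1 l hl (by
      rw [hy]
      exact S.C.one_mem)
    rw [h2]
    rfl
  have hrl : FreeGroup.lift (xx (er M s t) s t) (rm (M s t)) = rl M s t := by
    unfold rm rl
    rw [map_mul, map_inv, map_altProd, map_altProd, FreeGroup.lift_apply_of,
      FreeGroup.lift_apply_of]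
    rfl
  have hmk : ∀ v : List (Bool × Bool), FreeGroup.lift (xx (er M s t) s t) (FreeGroup.mk v) =
      lval (er M s t) (v.map fun q => (if q.1 then s else t, q.2)) := by
    intro v
    rw [FreeGroup.lift_mk]
    unfold lval
    rw [List.map_map]
    congr 1
    refine List.map_congr_left fun q _ => ?_
    obtain ⟨q1, q2⟩ := q
    cases q1 <;> cases q2 <;> rfl
  obtain ⟨c, hc1, hc2, hc3⟩ := collect (er M s t) (rl M s t) (bd N (bi N N))
    (bi N N + bd N (bi N N)) (L.map fun p => p.1 * ev S.x p.2 * p.1⁻¹) (by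
      intro z hz
      obtain ⟨p, hp, rfl⟩ := List.mem_map.1 hz
      obtain ⟨h1, h2, h3, h4⟩ := hL2 p hp
      rw [hm] at h1 h4
      rw [hX] at h1
      obtain ⟨uw, hu1, hu2⟩ := Wl_lval h1
      have hbi : bi (M s t) N ≤ bi N N := bi_mono hMN N
      have h5 : FreeGroup.mk (slw p.2) ∈ Subgroup.normalClosure {rm (M s t)} := by
        rw [mk_slw]
        rw [hK] at h3
        obtain ⟨y, hy1, hy2⟩ := h3
        have h6 : y = ev FreeGroup.of p.2 := by
          apply hinj
          rw [lift_ev, ← hx]
          rw [← hx] at hy2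
          exact hy2
        rw [← h6]
        exact hy1
      obtain ⟨d, hd1, hd2, hd3⟩ := hDAR (M s t) (bi N N) (by omega) (slw p.2) (by
        rw [slw_length]
        exact h4.trans hbi) h5
      have hbd : bd (M s t) (bi N N) ≤ bd N (bi N N) := bd_mono hMN le_rfl
      refine ⟨d.map fun q => (uw ++ q.1.map (fun q => (if q.1 then s else t, q.2)), q.2), ?_, ?_, ?_⟩
      · rw [List.length_map]
        exact hd1.trans hbd
      · intro q hq
        obtain ⟨q', hq', rfl⟩ := List.mem_map.1 hq
        rw [List.length_append, List.length_map]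
        have := hd2 q' hq'
        omega
      · have h7 : ev S.x p.2 = cj (rl M s t) (d.map fun q =>
            (lval (er M s t) (q.1.map (fun q => (if q.1 then s else t, q.2))), q.2)) := by
          rw [hx, ← lift_ev, ← mk_slw, hd3, cj_map, hrl, List.map_map]
          congr 1
          refine List.map_congr_left fun q _ => ?_
          exact Prod.ext (hmk q.1) rfl
        rw [h7, ← hu2, cj_conj, List.map_map, List.map_map]
        congr 1
        refine List.map_congr_left fun q _ => ?_
        refine Prod.ext ?_ rfl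
        exact (lval_append _ _).symm)
  rw [hL3] at hc3
  rw [List.length_map] at hc1
  refine ⟨c, ?_, ?_, hc3⟩
  · unfold ph
    calc c.length ≤ L.length * bd N (bi N N) := hc1
      _ ≤ (N + 1) * bd N (bi N N) := Nat.mul_le_mul_right _ (by omega)
      _ ≤ (N + 1) * bd N (bi N N) + bi N N := Nat.le_add_right _ _
  · intro p hp
    unfold ph
    have := hc2 p hp
    have h8 : bd N (bi N N) ≤ (N + 1) * bd N (bi N N) := Nat.le_mul_of_pos_left _ (by omega)
    omega

end Pool.Agent.L0h19.AL
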