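import Pool.Agent.L0h29.AL.Defs2

/-! Module ITR of project AL2. -/

set_option autoImplicit false

namespace Pool.Agent.L0h19.AL

open Pool.Agent.K7.H20.AW Pool.Agent.L0h29.AL

universe u

section
variable {G : Type*} [Group G] {X : Set G}

theorem wl_mono {x : G} {n n' : ℕ} (h : Wl X x n) (hn : n ≤ n') : Wl X x n' := by
  obtain ⟨l, h1, h2, h3⟩ := h
  exact ⟨l, h1.trans hn, h2, h3⟩

theorem wl_one (n : ℕ) : Wl X 1 n := ⟨[], Nat.zero_le _, by simp, rfl⟩

theorem wl_mul {x y : G} {n m : ℕ} (hx : Wl X x n) (hy : Wl X y m) : Wl X (x * y) (n + m) := by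
  obtain ⟨l, h1, h2, rfl⟩ := hx
  obtain ⟨k, h4, h5, rfl⟩ := hy
  refine ⟨l ++ k, ?_, ?_, by simp⟩
  · rw [List.length_append]
    omega
  · intro a ha
    rcases List.mem_append.1 ha with ha | ha
    · exact h2 a ha
    · exact h5 a ha

theorem wl_inv {x : G} {n : ℕ} (hx : Wl X x n) : Wl X x⁻¹ n := by
  obtain ⟨l, h1, h2, rfl⟩ := hx
  refine ⟨(l.map fun a => a⁻¹).reverse, by simpa using h1, ?_, ?_⟩
  · intro a ha
    rw [List.mem_reverse, List.mem_map] at ha
    obtain ⟨b, hb, rfl⟩ := ha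
    rw [inv_inv]
    exact (h2 b hb).symm
  · exact (List.prod_inv_reverse l).symm

theorem wl_of {x : G} (hx : x ∈ X) : Wl X x 1 :=
  ⟨[x], by simp, by simp [hx], by simp⟩

theorem wl_pow {x : G} (hx : Wl X x 1) (n : ℕ) : Wl X (x ^ n) n := by
  induction n with
  | zero => rw [pow_zero]; exact wl_one _
  | succ n ih => rw [pow_succ]; exact wl_mul ih hx

theorem wl_zpow {x : G} (hx : Wl X x 1) (k : ℤ) : Wl X (x ^ k) k.natAbs := by
  rcases le_or_gt 0 k with h | h
  · have e : x ^ k = x ^ k.natAbs := by rw [← zpow_natCast, Int.natAbs_of_nonneg h]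
    rw [e]
    exact wl_pow hx _
  · have e : x ^ k = x⁻¹ ^ k.natAbs := by
      rw [← zpow_natCast, inv_zpow', Int.ofNat_natAbs_of_nonpos h.le, neg_neg]
    rw [e]
    exact wl_pow (wl_inv hx) _

theorem wl_ev {x : Bool → G} (hx : ∀ τ, x τ ∈ X) (l : List (Bool × ℤ)) : Wl X (ev x l) (lt l) := by
  induction l with
  | nil => exact wl_one _
  | cons a l ih =>
    unfold ev lt at *
    rw [List.map_cons, List.prod_cons, List.map_cons, List.sum_cons]
    exact wl_mul (wl_zpow (wl_of (hx a.1)) a.2) ih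

/-- the inverse syllable word -/
def ivs (l : List (Bool × ℤ)) : List (Bool × ℤ) := (l.map fun a => (a.1, -a.2)).reverse

theorem ivs_lt (l : List (Bool × ℤ)) : lt (ivs l) = lt l := by
  unfold lt ivs
  rw [List.map_reverse, List.sum_reverse, List.map_map]
  congr 1
  refine List.map_congr_left fun a _ => ?_
  simp

theorem ivs_ev (x : Bool → G) (l : List (Bool × ℤ)) : ev x (ivs l) = (ev x l)⁻¹ := by
  unfold ev ivs
  rw [List.prod_inv_reverse, List.map_reverse, List.map_map, List.map_map]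
  congr 2
  refine List.map_congr_left fun a _ => ?_
  simp

theorem ivs_syl {l : List (Bool × ℤ)} (h : Syl l) : Syl (ivs l) := by
  refine ⟨?_, ?_⟩
  · unfold ivs
    rw [List.isChain_reverse, List.isChain_map]
    exact h.1.imp fun a b hab => Ne.symm hab
  · intro a ha
    unfold ivs at ha
    rw [List.mem_reverse, List.mem_map] at ha
    obtain ⟨b, hb, rfl⟩ := ha
    exact neg_ne_zero.2 (h.2 b hb)

end

/-- the bound after `j` steps -/
def bj (m j n : ℕ) : ℕ := (20 * (m + 1)) ^ (j + 1) * (n + 1)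

theorem bj_step (m j n : ℕ) : bj m j (20 * (m + 1) * n) ≤ bj m (j + 1) n := by
  unfold bj
  rw [pow_succ (20 * (m + 1)) (j + 1), mul_assoc ((20 * (m + 1)) ^ (j + 1))]
  refine Nat.mul_le_mul_left _ ?_
  nlinarith [Nat.zero_le m, Nat.zero_le n]

theorem bj_first (m j n : ℕ) : 4 * n ≤ bj m j n ∧ 10 * (m + 1) * n ≤ bj m j n := by
  have h1 : 20 * (m + 1) ≤ (20 * (m + 1)) ^ (j + 1) := Nat.le_self_pow (Nat.succ_ne_zero j) _
  have h2 : 20 * (m + 1) * (n + 1) ≤ bj m j n := Nat.mul_le_mul_right _ h1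
  constructor
  · nlinarith [Nat.zero_le m, Nat.zero_le n, Nat.zero_le (m * n)]
  · nlinarith [Nat.zero_le m, Nat.zero_le n, Nat.zero_le (m * n)]

theorem itr (hSTP : S_STP.{u}) (hTRE : S_TRE.{u}) (hPRE : S_PRE.{u}) (hSUB : S_SUB.{u}) :
    S_ITR.{u} := by
  intro G _ S g hg n hgn
  obtain ⟨T, hT⟩ := hTRE G S.toAmal
  have key : ∀ (j : ℕ) (g : G), g ∈ Subgroup.normalClosure (S.K : Set G) → ∀ n : ℕ, Wl S.X g n →
      ∀ l, Pth T.r ((1 : G) : G ⧸ S.C) (g : G ⧸ S.C) l → cnt S.UU l ≤ j →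
      ∃ L : List (G × List (Bool × ℤ)), L.length ≤ j ∧
      (∀ p ∈ L, Wl S.X p.1 (bj S.m j n) ∧ Syl p.2 ∧ ev S.x p.2 ∈ S.K ∧ lt p.2 ≤ bj S.m j n) ∧
      (L.map fun p => p.1 * ev S.x p.2 * p.1⁻¹).prod = g := by
    intro j
    induction j with
    | zero =>
      intro g hg n hgn l hl hj
      by_cases h1 : g = 1
      · exact ⟨[], le_rfl, by simp, by rw [h1]; rfl⟩
      · obtain ⟨u, k, hu, hk, hkK, hlt, hred⟩ := hSTP G S T hT g hg h1 n hgn l hl
        obtain ⟨l', hl'⟩ := T.conn ((1 : G) : G ⧸ S.C)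
          ((u * ev S.x k * u⁻¹ * g : G) : G ⧸ S.C)
        have := hred l' hl'
        omega
    | succ j ih =>
      intro g hg n hgn l hl hj
      by_cases h1 : g = 1
      · exact ⟨[], Nat.zero_le _, by simp, by rw [h1]; rfl⟩
      · obtain ⟨u, k, hu, hk, hkK, hlt, hred⟩ := hSTP G S T hT g hg h1 n hgn l hl
        obtain ⟨l', hl'⟩ := T.conn ((1 : G) : G ⧸ S.C)
          ((u * ev S.x k * u⁻¹ * g : G) : G ⧸ S.C)
        have h2 := hred l' hl'
        have hg' : u * ev S.x k * u⁻¹ * g ∈ Subgroup.normalClosure (S.K : Set G) := by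
          refine Subgroup.mul_mem _ ?_ hg
          exact Subgroup.normalClosure_normal.conj_mem _ (Subgroup.subset_normalClosure hkK) u
        have hWl : Wl S.X (u * ev S.x k * u⁻¹ * g) (20 * (S.m + 1) * n) := by
          have h3 := wl_mul (wl_mul (wl_mul hu (wl_ev S.xX k)) (wl_inv hu)) hgn
          refine wl_mono h3 ?_
          nlinarith [Nat.zero_le S.m, Nat.zero_le n, Nat.zero_le (S.m * n)]
        obtain ⟨L, hL1, hL2, hL3⟩ := ih _ hg' _ hWl l' hl' (by omega)
        refine ⟨(u, ivs k) :: L, ?_, ?_, ?_⟩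
        · rw [List.length_cons]
          omega
        · intro p hp
          rcases List.mem_cons.1 hp with rfl | hp
          · refine ⟨wl_mono hu (bj_first _ _ _).1, ivs_syl hk, ?_, ?_⟩
            · change ev S.x (ivs k) ∈ S.K
              rw [ivs_ev]
              exact S.K.inv_mem hkK
            · change lt (ivs k) ≤ _
              rw [ivs_lt]
              exact hlt.trans (bj_first _ _ _).2
          · obtain ⟨h4, h5, h6, h7⟩ := hL2 p hp
            exact ⟨wl_mono h4 (bj_step _ _ _), h5, h6, h7.trans (bj_step _ _ _)⟩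
        · rw [List.map_cons, List.prod_cons, hL3, ivs_ev]
          group
  obtain ⟨l, hl⟩ := T.conn ((1 : G) : G ⧸ S.C) (g : G ⧸ S.C)
  have h1 := (hPRE G S T hT g n hgn l hl).1
  have h2 := (hSUB _ T S.UU).2.2.2.2.1 l
  exact key n g hg n hgn l hl (by omega)

end Pool.Agent.L0h19.AL
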